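import Pool.Agent.H.MP_843a88.B

set_option autoImplicit false

open Set Filter Topology MeasureTheory

namespace Pool.Agent.Results.MP_843a88_gt.Yes

theorem result : ∃ (X : Type) (_ : TopologicalSpace X), CompactSpace X ∧ T2Space X ∧ ∃ x : X,
    (∀ [MeasurableSpace X] [BorelSpace X] (μ : Measure X), IsProbabilityMeasure μ →
      μ.InnerRegular → μ.OuterRegular → μ {x} = 0 → x ∉ ⋂₀ {C | IsClosed C ∧ μ C = 1}) ∧
    ∃ Y : Set X, (∀ C : Set (Set Y), (∀ U ∈ C, IsOpen U ∧ U.Nonempty) → C.Pairwise Disjoint →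
      C.Countable) ∧ x ∉ Y ∧ x ∈ closure Y := by
  open Pool.Agent.H.MP_843a88 in
  refine ⟨X, inferInstance, isCompact_iff_compactSpace.1 isClosed_closure.isCompact, inferInstance,
    ⟨pt, pt_mem⟩, fun μ _ _ _ h e => ?_, Subtype.val ⁻¹' Y, fun C c1 c2 => ?_, ?_, ?_⟩
  · obtain ⟨N, n1, n2, n3⟩ := avoid μ h
    exact e Nᶜ ⟨n1.isClosed_compl, (prob_compl_eq_one_iff n1.measurableSet).2 n3⟩ n2
  · have i : IsInducing fun y : (Subtype.val ⁻¹' Y : Set X) => y.1.1 :=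
      IsInducing.subtypeVal.comp IsInducing.subtypeVal
    choose! W w1 w2 using fun U (h : U ∈ C) => i.isOpen_iff.1 (c1 U h).1
    refine countable_of_injective_of_countable_image (f := W) (fun U u V v e => by
      rw [← w2 U u, e, w2 V v]) (ccc _ ?_ ?_)
    · rintro _ ⟨U, u, rfl⟩
      obtain ⟨y, hy⟩ := (c1 U u).2
      exact ⟨w1 U u, y.1.1, by rwa [← w2 U u] at hy, y.2⟩
    · rintro _ ⟨U, u, rfl⟩ _ ⟨V, v, rfl⟩ e
      refine eq_empty_iff_forall_notMem.2 fun y hy => @Set.disjoint_left.1 (c2 u v fun k =>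
        e (k ▸ rfl)) ⟨⟨y, subset_closure hy.2⟩, hy.2⟩ ((w2 U u).le hy.1.1) ((w2 V v).le hy.1.2)
  · rintro ⟨p, -, e⟩
    simpa [φ, pt] using congrFun e (.inl (p.1, ∅))
  · rw [IsInducing.subtypeVal.closure_eq_preimage_closure_image, Subtype.image_preimage_coe,
      inter_eq_right.2 subset_closure]
    exact pt_mem

end Pool.Agent.Results.MP_843a88_gt.Yes
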